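import Pool.Agent.helper67.TPD.Spec

set_option autoImplicit false

/-!
Row tpd:CRM of the project tpd (MP_ebc808_nt): the data exist.
-/

open Finset

noncomputable section

namespace Pool.Agent.TPD

open Pool.Agent.EP Pool.Agent.PQ

theorem CRM_solve (A m x : ℕ) (hm : 0 < m) (h : Nat.Coprime A m) : ∃ c : ℕ, A * c ≡ x [MOD m] := by
  have : NeZero m := ⟨by omega⟩
  refine ⟨((x : ZMod m) * (A : ZMod m)⁻¹).val, ?_⟩
  rw [← ZMod.natCast_eq_natCast_iff]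
  push_cast
  rw [ZMod.natCast_zmod_val, mul_comm (x : ZMod m), ← mul_assoc, ZMod.coe_mul_inv_eq_one A h, one_mul]

theorem CRM_class (L U V A x : ℕ) (hL : 0 < L) (hU : 0 < U) (hLU : L.Coprime U)
    (hLV : L.Coprime V) (hUV : U.Coprime V) (hAL : A.Coprime L) (hAU : A.Coprime U)
    (hx : x.Coprime L) : ∃ c : ℕ, A * c ≡ x [MOD L] ∧ U ∣ A * c + 1 ∧ c.Coprime (L * U * V) := by
  obtain ⟨c1, h1⟩ := CRM_solve A L x hL hAL
  obtain ⟨c2, h2⟩ := CRM_solve A U (U - 1) hU hAU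
  obtain ⟨r, hr1, hr2⟩ := Nat.chineseRemainder hLU c1 c2
  obtain ⟨c, hc1, hc2⟩ := Nat.chineseRemainder (Nat.Coprime.mul_left hLV hUV) r 1
  have e1 : A * c ≡ x [MOD L] :=
    (Nat.ModEq.mul_left A ((hc1.of_dvd (Dvd.intro _ rfl)).trans hr1)).trans h1
  have e2 : A * c ≡ U - 1 [MOD U] :=
    (Nat.ModEq.mul_left A ((hc1.of_dvd (Dvd.intro_left _ rfl)).trans hr2)).trans h2
  have e3 : U ∣ A * c + 1 := by
    have h3 : A * c + 1 ≡ (U - 1) + 1 [MOD U] := Nat.ModEq.add_right 1 e2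
    have h4 : (U - 1) + 1 = U := by omega
    rw [h4] at h3
    exact (Nat.modEq_zero_iff_dvd).1 (h3.trans ((Nat.modEq_zero_iff_dvd).2 (dvd_refl U)))
  refine ⟨c, e1, e3, ?_⟩
  have k1 : c.Coprime L := by
    have h3 : (A * c).Coprime L := by
      have := e1.gcd_eq
      rw [Nat.Coprime, this]
      exact hx
    exact Nat.Coprime.coprime_mul_left h3
  have k2 : c.Coprime U := by
    rw [Nat.coprime_iff_gcd_eq_one]
    have h3 : Nat.gcd c U ∣ A * c + 1 := (Nat.gcd_dvd_right c U).trans e3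
    have h4 : Nat.gcd c U ∣ A * c := Dvd.dvd.mul_left (Nat.gcd_dvd_left c U) A
    exact Nat.dvd_one.1 ((Nat.dvd_add_right h4).1 h3)
  have k3 : c.Coprime V := by
    have := hc2.gcd_eq
    rw [Nat.Coprime, this]
    simp
  exact Nat.Coprime.mul_right (Nat.Coprime.mul_right k1 k2) k3

/-- the primes -/
theorem CRM_inf (L : ℕ) : {p : ℕ | p.Prime ∧ p % 24 = 7 ∧ L < p}.Infinite := by
  rw [Set.infinite_iff_exists_gt]
  intro n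
  have hu : IsUnit ((7 : ℕ) : ZMod 24) := by
    rw [ZMod.isUnit_iff_coprime]; decide
  obtain ⟨p, hp1, hp2, hp3⟩ := Nat.forall_exists_prime_gt_and_eq_mod hu (n + L)
  refine ⟨p, ⟨hp2, ?_, by omega⟩, by omega⟩
  have h1 := (ZMod.natCast_eq_natCast_iff p 7 24).1 hp3
  have h2 : p % 24 = 7 % 24 := h1
  omega

theorem CRM_sets (L n₀ n₁ n₂ : ℕ) : ∃ s s₁ s₂ : Finset ℕ, s.card = n₀ ∧ s₁.card = n₁ ∧
    s₂.card = n₂ ∧ (∀ q ∈ s, q.Prime ∧ q % 24 = 7 ∧ L < q) ∧ (∀ q ∈ s₁, q.Prime ∧ q % 24 = 7 ∧ L < q) ∧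
    (∀ q ∈ s₂, q.Prime ∧ q % 24 = 7 ∧ L < q) ∧ (∀ q ∈ s, ∀ r ∈ s₁, q ≠ r) ∧
    (∀ q ∈ s, ∀ r ∈ s₂, q ≠ r) ∧ ∀ q ∈ s₁, ∀ r ∈ s₂, q ≠ r := by
  classical
  have h0 := CRM_inf L
  obtain ⟨s, hs1, hs2⟩ := h0.exists_subset_card_eq n₀
  have h1 := h0.sdiff s.finite_toSet
  obtain ⟨s₁, hs3, hs4⟩ := h1.exists_subset_card_eq n₁
  have h2 := h1.sdiff s₁.finite_toSet
  obtain ⟨s₂, hs5, hs6⟩ := h2.exists_subset_card_eq n₂
  refine ⟨s, s₁, s₂, hs2, hs4, hs6, fun q hq => hs1 hq, fun q hq => (hs3 hq).1,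
    fun q hq => (hs5 hq).1.1, ?_, ?_, ?_⟩
  · rintro q hq r hr rfl
    exact (hs3 hr).2 hq
  · rintro q hq r hr rfl
    exact (hs5 hr).1.2 hq
  · rintro q hq r hr rfl
    exact (hs5 hr).2 hq

theorem CRM_prod (s : Finset ℕ) (h : ∀ q ∈ s, q % 24 = 7) :
    (∏ q ∈ s, q) % 24 = 7 ^ s.card % 24 := by
  classical
  induction s using Finset.induction_on with
  | empty => simp
  | insert q s hq ih =>
    rw [Finset.prod_insert hq, Finset.card_insert_of_notMem hq, Nat.mul_mod,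
      ih (fun r hr => h r (Finset.mem_insert_of_mem hr)), h q (Finset.mem_insert_self q s), pow_succ,
      Nat.mul_mod (7 ^ s.card) 7, mul_comm]

theorem CRM_pow (κ n : ℕ) (hκ : 2 ≤ κ) (hn : n + 3 = 2 ^ κ) : 7 ^ n % 24 = 7 := by
  obtain ⟨c, rfl⟩ : ∃ c, κ = c + 1 := ⟨κ - 1, by omega⟩
  have h1 : 2 ^ (c + 1) = 2 * 2 ^ c := by ring
  have h2 : 1 < 2 ^ c := Nat.one_lt_two_pow (by omega)
  obtain ⟨d, rfl⟩ : ∃ d, n = 2 * d + 1 := ⟨(n - 1) / 2, by omega⟩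
  rw [pow_succ, pow_mul, Nat.mul_mod, Nat.pow_mod]
  norm_num

/-- **CRM** -/
theorem CRM : CRM_stmt := by
  classical
  intro i a t ht
  obtain ⟨L, hLdef⟩ : ∃ L, L = 24 * t * 2 ^ (2 * (i + 2) + 1) := ⟨_, rfl⟩
  have hL0 : 0 < L := by
    rw [hLdef]
    positivity
  have h2κ : 3 ≤ 2 ^ (i + 2) := by
    have h1 : 2 ^ (i + 2) = 4 * 2 ^ i := by ring
    have h2 : 1 ≤ 2 ^ i := Nat.one_le_two_pow
    omega
  obtain ⟨s, s₁, s₂, hc0, hc1, hc2, hs, hs₁, hs₂, hd01, hd02, hd12⟩ :=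
    CRM_sets L (2 ^ (i + 2) - 3) (2 ^ (2 * (i + 2) + 1)) (2 ^ (2 * (i + 2) + 1))
  obtain ⟨Q, hQ⟩ : ∃ Q, Q = ∏ q ∈ s, q := ⟨_, rfl⟩
  obtain ⟨Q₁, hQ₁⟩ : ∃ Q, Q = ∏ q ∈ s₁, q := ⟨_, rfl⟩
  obtain ⟨Q₂, hQ₂⟩ : ∃ Q, Q = ∏ q ∈ s₂, q := ⟨_, rfl⟩
  have hqL : ∀ q : ℕ, q.Prime → L < q → Nat.Coprime q L := by
    intro q hq hlt
    rw [Nat.Prime.coprime_iff_not_dvd hq]
    intro hdvd
    have := Nat.le_of_dvd hL0 hdvd
    omega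
  have hQL : Nat.Coprime Q L := by
    rw [hQ]; exact Nat.Coprime.prod_left fun q hq => hqL q (hs q hq).1 (hs q hq).2.2
  have hQL₁ : Nat.Coprime Q₁ L := by
    rw [hQ₁]; exact Nat.Coprime.prod_left fun q hq => hqL q (hs₁ q hq).1 (hs₁ q hq).2.2
  have hQL₂ : Nat.Coprime Q₂ L := by
    rw [hQ₂]; exact Nat.Coprime.prod_left fun q hq => hqL q (hs₂ q hq).1 (hs₂ q hq).2.2
  have h01 : Nat.Coprime Q Q₁ := by
    rw [hQ, hQ₁]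
    exact Nat.Coprime.prod_left fun q hq => Nat.Coprime.prod_right fun r hr =>
      (Nat.coprime_primes (hs q hq).1 (hs₁ r hr).1).2 (hd01 q hq r hr)
  have h02 : Nat.Coprime Q Q₂ := by
    rw [hQ, hQ₂]
    exact Nat.Coprime.prod_left fun q hq => Nat.Coprime.prod_right fun r hr =>
      (Nat.coprime_primes (hs q hq).1 (hs₂ r hr).1).2 (hd02 q hq r hr)
  have h12 : Nat.Coprime Q₁ Q₂ := by
    rw [hQ₁, hQ₂]
    exact Nat.Coprime.prod_left fun q hq => Nat.Coprime.prod_right fun r hr =>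
      (Nat.coprime_primes (hs₁ q hq).1 (hs₂ r hr).1).2 (hd12 q hq r hr)
  have hQ0 : 0 < Q := by
    rw [hQ]; exact Finset.prod_pos fun q hq => (hs q hq).1.pos
  have hQ₁0 : 0 < Q₁ := by
    rw [hQ₁]; exact Finset.prod_pos fun q hq => (hs₁ q hq).1.pos
  have hQ₂0 : 0 < Q₂ := by
    rw [hQ₂]; exact Finset.prod_pos fun q hq => (hs₂ q hq).1.pos
  -- L = 2 ^ e * T
  obtain ⟨e, T, hT2, hLT⟩ := Nat.exists_eq_pow_mul_and_not_dvd hL0.ne' 2 (by norm_num)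
  have hbe : 2 * (i + 2) + 1 + 3 ≤ e := by
    have h1 : 2 ^ (2 * (i + 2) + 1 + 3) ∣ 2 ^ e * T := by
      rw [← hLT, hLdef]
      exact ⟨3 * t, by rw [pow_add]; ring⟩
    have h2 : Nat.Coprime (2 ^ (2 * (i + 2) + 1 + 3)) T :=
      Nat.Coprime.pow_left _ ((Nat.Prime.coprime_iff_not_dvd Nat.prime_two).2 hT2)
    have h3 := h2.dvd_of_dvd_mul_right h1
    exact (Nat.pow_dvd_pow_iff_le_right (by norm_num)).1 h3
  have h3T : 3 ∣ T := by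
    have h1 : 3 ∣ 2 ^ e * T := by
      rw [← hLT, hLdef]
      exact ⟨8 * t * 2 ^ (2 * (i + 2) + 1), by ring⟩
    have h2 : Nat.Coprime 3 (2 ^ e) := Nat.Coprime.pow_right _ (by norm_num)
    exact h2.dvd_of_dvd_mul_left h1
  have hT0 : 0 < T := by
    rcases Nat.eq_zero_or_pos T with h | h
    · exact absurd (h ▸ dvd_zero 2) hT2
    · exact h
  have hcT : Nat.Coprime (2 ^ e) T :=
    Nat.Coprime.pow_left _ ((Nat.Prime.coprime_iff_not_dvd Nat.prime_two).2 hT2)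
  have h2e : 0 < 2 ^ e := by positivity
  -- the classes modulo L
  obtain ⟨k₀, hk1, hk2⟩ := Nat.chineseRemainder hcT (2 ^ e - 1) 1
  obtain ⟨M₀, hM1, hM2⟩ := Nat.chineseRemainder hcT (1 + 24 * a * (2 ^ e - 1)) 1
  have hk3 : 2 ^ e ∣ k₀ + 1 := by
    have h3 : k₀ + 1 ≡ (2 ^ e - 1) + 1 [MOD 2 ^ e] := Nat.ModEq.add_right 1 hk1
    have h4 : (2 ^ e - 1) + 1 = 2 ^ e := by omega
    rw [h4] at h3
    exact (Nat.modEq_zero_iff_dvd).1 (h3.trans ((Nat.modEq_zero_iff_dvd).2 (dvd_refl _)))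
  have hM3 : M₀ + 24 * a ≡ 1 [MOD 2 ^ e] := by
    have h3 : M₀ + 24 * a ≡ 1 + 24 * a * (2 ^ e - 1) + 24 * a [MOD 2 ^ e] :=
      Nat.ModEq.add_right _ hM1
    have h4 : 1 + 24 * a * (2 ^ e - 1) + 24 * a = 1 + 24 * a * 2 ^ e := by
      obtain ⟨z, hz⟩ : ∃ z, 2 ^ e = z + 1 := ⟨2 ^ e - 1, by omega⟩
      rw [hz, Nat.add_sub_cancel]
      ring
    rw [h4] at h3
    refine h3.trans ?_
    have h5 : 1 + 24 * a * 2 ^ e ≡ 1 + 0 [MOD 2 ^ e] :=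
      Nat.ModEq.add_left 1 ((Nat.modEq_zero_iff_dvd).2 (Dvd.intro_left _ rfl))
    simpa using h5
  have h8e : 8 ∣ 2 ^ e := by
    have : (8 : ℕ) = 2 ^ 3 := by norm_num
    rw [this]
    exact pow_dvd_pow 2 (by omega)
  have hk24 : k₀ % 24 = 7 := by
    have h1 : 8 ∣ k₀ + 1 := h8e.trans hk3
    have h2 : k₀ % 3 = 1 := by
      have h3 : k₀ ≡ 1 [MOD 3] := hk2.of_dvd h3T
      exact h3
    omega
  have hM24 : M₀ % 24 = 1 := by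
    have h1 : M₀ + 24 * a ≡ 1 [MOD 8] := hM3.of_dvd h8e
    have h1' : (M₀ + 24 * a) % 8 = 1 := h1
    have h2 : M₀ % 3 = 1 := by
      have h3 : M₀ ≡ 1 [MOD 3] := hM2.of_dvd h3T
      exact h3
    omega
  have hkL : k₀.Coprime L := by
    rw [hLT]
    refine Nat.Coprime.mul_right (Nat.Coprime.pow_right _ ?_) ?_
    · rw [Nat.coprime_two_right, Nat.odd_iff]
      omega
    · have := hk2.gcd_eq
      rw [Nat.Coprime, this]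
      simp
  have hML : M₀.Coprime L := by
    rw [hLT]
    refine Nat.Coprime.mul_right (Nat.Coprime.pow_right _ ?_) ?_
    · rw [Nat.coprime_two_right, Nat.odd_iff]
      omega
    · have := hM2.gcd_eq
      rw [Nat.Coprime, this]
      simp
  -- the four classes
  obtain ⟨c₁, hc₁a, hc₁b, hc₁c⟩ := CRM_class L (Q * Q₂) Q₁ 1 k₀ hL0 (Nat.mul_pos hQ0 hQ₂0)
    (Nat.Coprime.mul_right hQL.symm hQL₂.symm) hQL₁.symm (Nat.Coprime.mul_left h01 h12.symm)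
    (Nat.coprime_one_left _) (Nat.coprime_one_left _) hkL
  obtain ⟨c₂, hc₂a, hc₂b, hc₂c⟩ := CRM_class L (Q * Q₂) Q₁ Q₁ k₀ hL0 (Nat.mul_pos hQ0 hQ₂0)
    (Nat.Coprime.mul_right hQL.symm hQL₂.symm) hQL₁.symm (Nat.Coprime.mul_left h01 h12.symm)
    hQL₁ (Nat.Coprime.mul_right h01.symm h12) hkL
  obtain ⟨d₁, hd₁a, hd₁b, hd₁c⟩ := CRM_class L Q₁ (Q * Q₂) Q M₀ hL0 hQ₁0
    hQL₁.symm (Nat.Coprime.mul_right hQL.symm hQL₂.symm) (Nat.Coprime.mul_right h01.symm h12)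
    hQL h01 hML
  obtain ⟨d₂, hd₂a, hd₂b, hd₂c⟩ := CRM_class L Q₁ (Q * Q₂) Q₂ M₀ hL0 hQ₁0
    hQL₁.symm (Nat.Coprime.mul_right hQL.symm hQL₂.symm) (Nat.Coprime.mul_right h01.symm h12)
    hQL₂ h12.symm hML
  obtain ⟨m, hm⟩ : ∃ m, m = L * (Q * Q₂) * Q₁ := ⟨_, rfl⟩
  have hm' : L * Q₁ * (Q * Q₂) = m := by
    rw [hm]
    ring
  rw [hm'] at hd₁c hd₂c
  rw [← hm] at hc₁c hc₂c
  have hLm : L ∣ m := ⟨(Q * Q₂) * Q₁, by rw [hm]; ring⟩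
  have hUm : Q * Q₂ ∣ m := ⟨L * Q₁, by rw [hm]; ring⟩
  have hVm : Q₁ ∣ m := ⟨L * (Q * Q₂), by rw [hm]; ring⟩
  -- transfer from the class to its elements
  have htr : ∀ (A c P x U : ℕ), P % m = c % m → U ∣ m → A * c ≡ x [MOD L] → U ∣ A * c + 1 →
      A * P ≡ x [MOD L] ∧ U ∣ A * P + 1 := by
    intro A c P x U hP hU h1 h2
    have h3 : P ≡ c [MOD m] := hP
    refine ⟨(Nat.ModEq.mul_left A (h3.of_dvd hLm)).trans h1, ?_⟩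
    have h4 : A * P + 1 ≡ A * c + 1 [MOD U] :=
      Nat.ModEq.add_right 1 (Nat.ModEq.mul_left A (h3.of_dvd hU))
    exact (Nat.modEq_zero_iff_dvd).1 (h4.trans ((Nat.modEq_zero_iff_dvd).2 h2))
  have h24L : 24 ∣ L := by
    rw [hLdef]
    exact ⟨t * 2 ^ (2 * (i + 2) + 1), by ring⟩
  have hQ24 : Q % 24 = 7 := by
    rw [hQ, CRM_prod s (fun q hq => (hs q hq).2.1)]
    exact CRM_pow (i + 2) s.card (by omega) (by rw [hc0]; omega)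
  have hdQ : ∀ q ∈ s, q ∣ Q * Q₂ := fun q hq => by
    rw [hQ]
    exact Dvd.dvd.mul_right (Finset.dvd_prod_of_mem _ hq) _
  have hdQ₂ : ∀ q ∈ s₂, q ∣ Q * Q₂ := fun q hq => by
    rw [hQ₂]
    exact Dvd.dvd.mul_left (Finset.dvd_prod_of_mem _ hq) _
  have hdQ₁ : ∀ q ∈ s₁, q ∣ Q₁ := fun q hq => by
    rw [hQ₁]
    exact Finset.dvd_prod_of_mem _ hq
  refine ⟨i + 2, 2 * (i + 2) + 1, s, s₁, s₂, m, c₁, c₂, d₁, d₂, ?_⟩
  constructor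
  · omega
  · rfl
  · omega
  · exact fun q hq => ⟨(hs q hq).1, (hs q hq).2.1⟩
  · exact fun q hq => ⟨(hs₁ q hq).1, (hs₁ q hq).2.1⟩
  · exact fun q hq => ⟨(hs₂ q hq).1, (hs₂ q hq).2.1⟩
  · rw [hc0]
    omega
  · rw [hc1]
  · rw [hc2]
  · rw [hm]
    exact Nat.mul_pos (Nat.mul_pos hL0 (Nat.mul_pos hQ0 hQ₂0)) hQ₁0
  · exact hc₁c
  · exact hc₂c
  · exact hd₁c
  · exact hd₂c
  · intro P₁ P₂ hP₁ hP₂
    rw [← hQ₁, ← hLdef]
    obtain ⟨e1, e2⟩ := htr 1 c₁ P₁ k₀ (Q * Q₂) hP₁ hUm hc₁a hc₁b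
    obtain ⟨e3, e4⟩ := htr Q₁ c₂ P₂ k₀ (Q * Q₂) hP₂ hUm hc₂a hc₂b
    rw [one_mul] at e1 e2
    have e5 : P₁ % 24 = k₀ % 24 := e1.of_dvd h24L
    have e6 : (Q₁ * P₂) % 24 = k₀ % 24 := e3.of_dvd h24L
    refine ⟨by omega, by omega, e1.trans e3.symm, ?_, ?_⟩
    · intro q hq
      exact ⟨(hdQ q hq).trans e2, (hdQ q hq).trans e4⟩
    · intro q hq
      exact ⟨(hdQ₂ q hq).trans e2, (hdQ₂ q hq).trans e4⟩
  · intro R₁ R₂ hR₁ hR₂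
    rw [← hQ, ← hQ₂, ← hLdef]
    obtain ⟨e1, e2⟩ := htr Q d₁ R₁ M₀ Q₁ hR₁ hVm hd₁a hd₁b
    obtain ⟨e3, e4⟩ := htr Q₂ d₂ R₂ M₀ Q₁ hR₂ hVm hd₂a hd₂b
    have e5 : (Q * R₁) % 24 = M₀ % 24 := e1.of_dvd h24L
    have e6 : (Q₂ * R₂) % 24 = M₀ % 24 := e3.of_dvd h24L
    refine ⟨?_, by omega, by omega, e1.trans e3.symm, ?_⟩
    · have e7 : (Q * R₁) % 24 = (7 * R₁) % 24 := by
        rw [Nat.mul_mod, hQ24, Nat.mul_mod 7 R₁]
      omega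
    · intro q hq
      exact ⟨(hdQ₁ q hq).trans e2, (hdQ₁ q hq).trans e4⟩
  · intro P₁ R₁ hP₁ hR₁
    rw [← hQ]
    obtain ⟨e1, -⟩ := htr 1 c₁ P₁ k₀ (Q * Q₂) hP₁ hUm hc₁a hc₁b
    obtain ⟨e3, -⟩ := htr Q d₁ R₁ M₀ Q₁ hR₁ hVm hd₁a hd₁b
    rw [one_mul] at e1
    have hbd : 2 ^ (2 * (i + 2) + 1) ∣ 2 ^ e := pow_dvd_pow 2 (by omega)
    have heL : 2 ^ e ∣ L := by
      rw [hLT]
      exact Dvd.intro _ rfl
    have f1 : P₁ + 1 ≡ 0 [MOD 2 ^ (2 * (i + 2) + 1)] := by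
      have g1 : P₁ + 1 ≡ k₀ + 1 [MOD 2 ^ e] := Nat.ModEq.add_right 1 (e1.of_dvd heL)
      exact (g1.trans ((Nat.modEq_zero_iff_dvd).2 hk3)).of_dvd hbd
    have f2 : Q * R₁ + 24 * a ≡ 1 [MOD 2 ^ (2 * (i + 2) + 1)] := by
      have g1 : Q * R₁ + 24 * a ≡ M₀ + 24 * a [MOD 2 ^ e] :=
        Nat.ModEq.add_right _ (e3.of_dvd heL)
      exact (g1.trans hM3).of_dvd hbd
    have f3 : P₁ * (Q * R₁) + 1 ≡ P₁ * (Q * R₁) + (Q * R₁ + 24 * a)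
        [MOD 2 ^ (2 * (i + 2) + 1)] := Nat.ModEq.add_left _ f2.symm
    have f4 : P₁ * (Q * R₁) + (Q * R₁ + 24 * a) = (P₁ + 1) * (Q * R₁) + 24 * a := by ring
    rw [f4] at f3
    have f5 : (P₁ + 1) * (Q * R₁) + 24 * a ≡ 0 * (Q * R₁) + 24 * a
        [MOD 2 ^ (2 * (i + 2) + 1)] := Nat.ModEq.add_right _ (Nat.ModEq.mul_right _ f1)
    have f6 := f3.trans f5
    rw [zero_mul, zero_add] at f6
    exact f6

end Pool.Agent.TPD
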